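import Mathlib
import Pool.Agent.Helper3_PPX.Geo
import Pool.Agent.Helper64_PRS.Goo

/-! # Squad PPX: module GOO, pair steps preserve good elements -/

set_option autoImplicit false

universe u v

namespace Pool.Agent.PPX.H6

open MvPolynomial PGH PRS.H64

section Ev

variable {k M E : Type*} [Field k] [Field M] [Algebra k M] [Field E] [Algebra k E]
  {R : Subalgebra k M} (φ : R →ₐ[k] E)

/-- evaluation commutes with polynomials -/
theorem ev_aeval' {ι : Type*} (y : ι → M)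
    (hy : ∀ i, y i ∈ R) (F : MvPolynomial ι k) :
    aeval y F ∈ R ∧ ev φ (aeval y F) = aeval (fun i => ev φ (y i)) F := by
  induction F using MvPolynomial.induction_on with
  | C c =>
    rw [aeval_C, aeval_C]
    exact ⟨R.algebraMap_mem _, ev_algebraMap φ c⟩
  | add p q hp hq =>
    rw [map_add, map_add]
    exact ⟨add_mem hp.1 hq.1, by rw [ev_add φ hp.1 hq.1, hp.2, hq.2]⟩
  | mul_X p i hp =>
    rw [map_mul, map_mul, aeval_X, aeval_X]
    exact ⟨mul_mem hp.1 (hy i), by rw [ev_mul φ hp.1 (hy i), hp.2]⟩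

end Ev

/-- the relations are preserved by specialisation -/
theorem rels_ev {k M E : Type*} [Field k] [Field M] [Algebra k M] [Field E] [Algebra k E]
    {Q : Subalgebra k M} (φ : Q →ₐ[k] E) {N₁ N₂ R : ℕ} (x z : M) (a : Fin N₁ → k) (b : Fin N₂ → k)
    (α : Fin R → Fin N₁ → ℤ) (β : Fin R → Fin N₂ → ℤ) (e : Fin R → ℕ) (c y : Fin R → M)
    (h : Rels x z (fun i => algebraMap k M (a i)) (fun j => algebraMap k M (b j)) α β e c y)
    (hx : x ∈ Q) (hz : z ∈ Q) (hxi : ∀ i, (x - algebraMap k M (a i))⁻¹ ∈ Q)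
    (hzi : ∀ j, (z - algebraMap k M (b j))⁻¹ ∈ Q)
    (hc : ∀ r, c r ∈ Q) (hci : ∀ r, (c r)⁻¹ ∈ Q) (hy : ∀ r, y r ∈ Q) :
    Rels (ev φ x) (ev φ z) (fun i => algebraMap k E (a i)) (fun j => algebraMap k E (b j)) α β e
      (fun r => ev φ (c r)) (fun r => ev φ (y r)) := by
  have hs : ∀ i, x - algebraMap k M (a i) ∈ Q := fun i => sub_mem hx (Q.algebraMap_mem _)
  have ht : ∀ j, z - algebraMap k M (b j) ∈ Q := fun j => sub_mem hz (Q.algebraMap_mem _)
  refine ⟨fun r => ev_ne_zero φ (hc r) (hci r) (h.ne r), fun r => ?_, h.left, h.right⟩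
  have h4 := congrArg (ev φ) (h.rel r)
  rw [ev_mul φ (prod_mem (fun i _ => zpow_mem' (hs i) (hxi i) _))
      (prod_mem (fun j _ => zpow_mem' (ht j) (hzi j) _)),
    ev_prod φ _ _ (fun q _ => zpow_mem' (hs q) (hxi q) _),
    ev_prod φ _ _ (fun q _ => zpow_mem' (ht q) (hzi q) _), ev_mul φ (hc r) (pow_mem (hy r) _),
    ev_pow φ (hy r)] at h4
  rw [← h4]
  congr 1
  · refine Finset.prod_congr rfl (fun q _ => ?_)
    rw [ev_zpow φ (hs q) (hxi q), ev_sub_const φ hx]
  · refine Finset.prod_congr rfl (fun q _ => ?_)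
    rw [ev_zpow φ (ht q) (hzi q), ev_sub_const φ hz]

section Good

variable {k : Type u} {M : Type v} [Field k] [Field M] [Algebra k M] [IsAlgClosed k] [CharZero k]

open Classical in
/-- the coordinates of a pair step are good -/
theorem pair_good (hgt : HgtStmt.{u}) (rig : RigStmt.{u}) {F₀ : Set M} {N₁ N₂ R : ℕ}
    (hN₁ : 20 ≤ N₁) (hN₂ : 20 ≤ N₂) (x z : M) (a : Fin N₁ → k) (b : Fin N₂ → k)
    (α : Fin R → Fin N₁ → ℤ) (β : Fin R → Fin N₂ → ℤ) (e : Fin R → ℕ) (c y : Fin R → M)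
    (ha : Function.Injective a) (hb : Function.Injective b)
    (F : MvPolynomial (Fin 2) k) (hF : Exc a b F) (hF0 : aeval ![x, z] F ≠ 0)
    (hc : ∀ r, GoodEl k F₀ (c r))
    (hR : Rels x z (fun i => algebraMap k M (a i)) (fun j => algebraMap k M (b j)) α β e c y)
    (hxa : ∀ i, x ≠ algebraMap k M (a i)) (hzb : ∀ j, z ≠ algebraMap k M (b j)) :
    GoodEl k F₀ x ∧ GoodEl k F₀ z := by
  choose Tb hTb hbT hbB hbR using hc
  set T0 : Set M := (⋃ r, Tb r) ∪ ({x, z} ∪
    Set.range (fun i => (x - algebraMap k M (a i))⁻¹) ∪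
    Set.range (fun j => (z - algebraMap k M (b j))⁻¹) ∪ Set.range y ∪
    Set.range (fun r => (c r)⁻¹) ∪ {(aeval ![x, z] F)⁻¹}) with hT0
  have hT0f : T0.Finite := by
    apply Set.Finite.union
    · exact Set.finite_iUnion (fun i => hTb i)
    · exact (((((Set.toFinite _).union (Set.finite_range _)).union
        (Set.finite_range _)).union (Set.finite_range _)).union (Set.finite_range _)).union
        (Set.finite_singleton _)
  have hsub : ∀ i, Tb i ⊆ T0 := fun i => (Set.subset_iUnion Tb i).trans Set.subset_union_left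
  have hxT : x ∈ T0 := Or.inr (Or.inl (Or.inl (Or.inl (Or.inl (Or.inl (Or.inl rfl))))))
  have hzT : z ∈ T0 := Or.inr (Or.inl (Or.inl (Or.inl (Or.inl (Or.inl (Or.inr rfl))))))
  have hxiT : ∀ i, (x - algebraMap k M (a i))⁻¹ ∈ T0 := fun i =>
    Or.inr (Or.inl (Or.inl (Or.inl (Or.inl (Or.inr ⟨i, rfl⟩)))))
  have hziT : ∀ j, (z - algebraMap k M (b j))⁻¹ ∈ T0 := fun j =>
    Or.inr (Or.inl (Or.inl (Or.inl (Or.inr ⟨j, rfl⟩))))
  have hyT : ∀ r, y r ∈ T0 := fun r => Or.inr (Or.inl (Or.inl (Or.inr ⟨r, rfl⟩)))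
  have hciT : ∀ r, (c r)⁻¹ ∈ T0 := fun r => Or.inr (Or.inl (Or.inr ⟨r, rfl⟩))
  have hFT : (aeval ![x, z] F)⁻¹ ∈ T0 := Or.inr (Or.inr rfl)
  -- the specialisation of everything
  have key : ∀ {E : Type u} [Field E] [Algebra k E] (Q : Subalgebra k M),
      T0 ⊆ (Q : Set M) → ∀ φ : Q →ₐ[k] E,
      Rels (ev φ x) (ev φ z) (fun i => algebraMap k E (a i)) (fun j => algebraMap k E (b j)) α β e
        (fun r => ev φ (c r)) (fun r => ev φ (y r)) ∧
      (∀ i, ev φ x ≠ algebraMap k E (a i)) ∧ (∀ j, ev φ z ≠ algebraMap k E (b j)) ∧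
      aeval ![ev φ x, ev φ z] F ≠ 0 := by
    intro E _ _ Q hTQ φ
    have hxQ : x ∈ Q := hTQ hxT
    have hzQ : z ∈ Q := hTQ hzT
    refine ⟨rels_ev φ x z a b α β e c y hR hxQ hzQ (fun i => hTQ (hxiT i)) (fun i => hTQ (hziT i))
      (fun r => hTQ (hsub r (hbT r))) (fun r => hTQ (hciT r)) (fun r => hTQ (hyT r)), ?_, ?_, ?_⟩
    · intro i h0
      have h1 : x - algebraMap k M (a i) ∈ Q := sub_mem hxQ (Q.algebraMap_mem _)
      have h2 := ev_ne_zero φ h1 (hTQ (hxiT i)) (sub_ne_zero.2 (hxa i))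
      rw [ev_sub_const φ hxQ, h0, sub_self] at h2
      exact h2 rfl
    · intro j h0
      have h1 : z - algebraMap k M (b j) ∈ Q := sub_mem hzQ (Q.algebraMap_mem _)
      have h2 := ev_ne_zero φ h1 (hTQ (hziT j)) (sub_ne_zero.2 (hzb j))
      rw [ev_sub_const φ hzQ, h0, sub_self] at h2
      exact h2 rfl
    · have hyQ : ∀ i, (![x, z] : Fin 2 → M) i ∈ Q := by
        intro i
        fin_cases i
        · exact hxQ
        · exact hzQ
      obtain ⟨h2, h3⟩ := ev_aeval' φ ![x, z] hyQ F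
      have h4 := ev_ne_zero φ h2 (hTQ hFT) hF0
      rw [h3] at h4
      have h5 : (fun i => ev φ ((![x, z] : Fin 2 → M) i)) = ![ev φ x, ev φ z] := by
        funext i
        fin_cases i
        · rfl
        · rfl
      rwa [h5] at h4
  -- bounded heights
  have hbdd : ∀ (E : Type u) [Field E] [Algebra k E] [FF k E] (ψ : M → E), ∃ B : ℕ,
      ∀ (Q : Subalgebra k M), T0 ⊆ (Q : Set M) → ∀ φ : Q →ₐ[k] E,
        (∀ t ∈ T0, t ∈ F₀ → ev φ t = ψ t) → ht k (ev φ x) + ht k (ev φ z) ≤ B := by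
    intro E _ _ _ ψ
    have hch : CharZero E := charZero_of_injective_algebraMap (algebraMap k E).injective
    obtain ⟨t, htr⟩ := FF.exists_transcendental (L := k) (E := E)
    obtain ⟨δ, hδ⟩ := exists_deriv k E htr
    let D : Derivation ℤ E E := δ.restrictScalars ℤ
    have hDk : ∀ c : k, D (algebraMap k E c) = 0 := fun c => δ.map_algebraMap c
    have hPL : PresL k D := fun c => ⟨0, by rw [hDk, map_zero]⟩
    have hDt : D t ≠ 0 := by
      change δ t ≠ 0
      rw [hδ]; exact one_ne_zero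
    have hconst : ∀ w, D w = 0 ↔ ∃ c : k, algebraMap k E c = w := by
      intro w
      constructor
      · intro hw
        apply not_transcendental
        intro hwt
        have hal := FF.isAlgebraic hwt
        exact hDt (deriv_zero_of_isAlgebraic_adjoin (AlgHom.id k E) D hDk hw (hal.isAlgebraic t))
      · rintro ⟨c, rfl⟩
        exact hDk c
    obtain ⟨cp, sc, hsc, hcp⟩ := bounded_poles (L := k) D hPL
    choose Bd hBd using fun i => hbB i E ψ
    refine ⟨10 * ∑ P ∈ sc, cp P + 10 * ∑ r, 2 * Bd r, fun Q hTQ φ hψ => ?_⟩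
    obtain ⟨k1, k2, k3, k4⟩ := key Q hTQ φ
    refine (hgt D hconst cp sc ⟨hsc, hcp⟩ (ev φ x) (ev φ z) a b α β e (fun r => ev φ (c r))
      (fun r => ev φ (y r)) F hN₁ hN₂ ha hb k2 k3 k1 hF k4).trans ?_
    have h5 : ∀ r, ht k (ev φ (c r)) ≤ Bd r := fun r =>
      hBd r Q ((hsub r).trans hTQ) φ (fun t ht => hψ t (hsub r ht))
    have h6 : ∑ r, 2 * ht k (ev φ (c r)) ≤ ∑ r, 2 * Bd r :=
      Finset.sum_le_sum (fun r _ => Nat.mul_le_mul_left 2 (h5 r))
    omega
  -- rigidity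
  have hrig : ∀ (L E : Type u) [Field L] [Field E] [Algebra k L] [Algebra L E] [Algebra k E]
      [IsScalarTower k L E] [IsAlgClosed L] [CharZero L] [FF L E] (Q : Subalgebra k M),
      T0 ⊆ (Q : Set M) → ∀ (φ : Q →ₐ[k] E) (D : Derivation ℤ E E), PresL L D →
      (∀ c : k, D (algebraMap k E c) = 0) → (∀ P : Place L E, DGe P D 0) → ∀ (P₀ : Place L E),
      (∀ y, P₀.Ge 1 y → P₀.Ge 1 (D y)) → ∀ (x₀ : Q →ₐ[k] k),
      (∀ r, P₀.Ge 1 (φ r - algebraMap k E (x₀ r))) → (∀ t ∈ T0, t ∈ F₀ → D (ev φ t) = 0) →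
      D (ev φ x) = 0 ∧ D (ev φ z) = 0 := by
    intro L E _ _ _ _ _ _ _ _ _ Q hTQ φ D hPL hDk hD0 P₀ hP₀ x₀ hx₀ hF₀
    have hch : CharZero E := charZero_of_injective_algebraMap (algebraMap L E).injective
    obtain ⟨k1, k2, k3, k4⟩ := key Q hTQ φ
    refine rig (k := k) (L := L) D hPL hDk hD0 P₀ hP₀ (ev φ x) (ev φ z) a b α β e
      (fun r => ev φ (c r)) (fun r => ev φ (y r)) F hN₁ hN₂ ha hb k2 k3 k1 ?_ hF k4 ?_ ?_
    · intro r
      exact hbR r L E Q ((hsub r).trans hTQ) φ D hPL hDk hD0 P₀ hP₀ x₀ hx₀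
        (fun t ht => hF₀ t (hsub r ht))
    · refine ⟨x₀ ⟨x, hTQ hxT⟩, ?_⟩
      have h1 := hx₀ ⟨x, hTQ hxT⟩
      rw [← ev_mem φ (hTQ hxT)] at h1
      exact h1
    · refine ⟨x₀ ⟨z, hTQ hzT⟩, ?_⟩
      have h1 := hx₀ ⟨z, hTQ hzT⟩
      rw [← ev_mem φ (hTQ hzT)] at h1
      exact h1
  refine ⟨⟨T0, hT0f, hxT, ?_, ?_⟩, ⟨T0, hT0f, hzT, ?_, ?_⟩⟩
  · intro E _ _ _ ψ
    obtain ⟨B, hB⟩ := hbdd E ψ
    exact ⟨B, fun Q hTQ φ hψ => (Nat.le_add_right _ _).trans (hB Q hTQ φ hψ)⟩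
  · intro L E _ _ _ _ _ _ _ _ _ Q hTQ φ D hPL hDk hD0 P₀ hP₀ x₀ hx₀ hF₀
    exact (hrig L E Q hTQ φ D hPL hDk hD0 P₀ hP₀ x₀ hx₀ hF₀).1
  · intro E _ _ _ ψ
    obtain ⟨B, hB⟩ := hbdd E ψ
    exact ⟨B, fun Q hTQ φ hψ => (Nat.le_add_left _ _).trans (hB Q hTQ φ hψ)⟩
  · intro L E _ _ _ _ _ _ _ _ _ Q hTQ φ D hPL hDk hD0 P₀ hP₀ x₀ hx₀ hF₀
    exact (hrig L E Q hTQ φ D hPL hDk hD0 P₀ hP₀ x₀ hx₀ hF₀).2

end Good

/-- the exceptional polynomial does not vanish at the generic point -/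
theorem aeval_ne {k M : Type*} [Field k] [Field M] [Algebra k M] (x z : M)
    (hind : ∀ p : MvPolynomial (Fin 2) (algebraMap k M).fieldRange,
      eval₂ (algebraMap k M).fieldRange.subtype ![x, z] p = 0 → p = 0)
    (F : MvPolynomial (Fin 2) k) (hF : F ≠ 0) : aeval ![x, z] F ≠ 0 := by
  intro h0
  apply hF
  have h1 : eval₂ (algebraMap k M).fieldRange.subtype ![x, z]
      (map (algebraMap k M).rangeRestrictField F) = 0 := by
    rw [eval₂_map]
    exact h0
  exact (map_injective _ (algebraMap k M).rangeRestrictField.injective)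
    ((hind _ h1).trans (map_zero _).symm)

/-- general position descends to a subfield -/
theorem gp_descend {k M : Type*} [Field k] [Field M] [Algebra k M] {N : ℕ} (b : Fin N → k)
    (h : GP (fun j => algebraMap k M (b j)) (slope fun j => algebraMap k M (b j))) :
    GP b (slope b) := by
  intro m n G J hmn hG h0 h1 hJ
  have hs : ∀ j, slope (fun j => algebraMap k M (b j)) j = algebraMap k M (slope b j) := by
    intro j
    unfold slope
    rw [map_sum]
    refine Finset.sum_congr rfl fun l _ => ?_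
    rw [map_div₀, map_sub, map_ofNat]
  have hinj : Function.Injective (map (σ := Fin 2) (algebraMap k M)) :=
    map_injective _ (algebraMap k M).injective
  have hdeg : ∀ l : Fin 2, degreeOf l (map (algebraMap k M) G) ≤ degreeOf l G := by
    intro l
    rw [degreeOf_eq_sup, degreeOf_eq_sup]
    exact Finset.sup_mono (support_map_subset _ _)
  refine h m n (map (algebraMap k M) G) J hmn ?_ ?_ ?_ ?_
  · intro h2
    exact hG (hinj (h2.trans (map_zero _).symm))
  · exact (hdeg 0).trans h0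
  · exact (hdeg 1).trans h1
  · intro j hj
    rw [eval_map]
    have h2 := congrArg (algebraMap k M) (hJ j hj)
    rw [map_zero] at h2
    rw [← h2, eval, coe_eval₂Hom, eval₂_comp_left, RingHom.comp_id]
    congr 1
    funext i
    fin_cases i
    · rfl
    · exact hs j

/-- GOO: pair steps preserve good elements -/
theorem goo (htx : HtxStmt.{u}) (hgt : HgtStmt.{u}) (rig : RigStmt.{u}) : GooStmt.{u, v} := by
  classical
  obtain ⟨N₀, hN₀, hJ⟩ := htx
  refine ⟨N₀, ?_⟩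
  intro k M _ _ _ _ _ F₀ G G' hstep hG w hw
  obtain ⟨N₁, N₂, R, x, z, a, b, α, β, e, c, y, hN₁, hN₂, haK, hbK, ha, hb, hGP, hc, hR, hind,
    halg⟩ := hstep.step
  choose a' ha' using haK
  have hae : a = fun q => algebraMap k M (a' q) := funext (fun q => (ha' q).symm)
  subst hae
  choose b' hb' using hbK
  have hbe : b = fun q => algebraMap k M (b' q) := funext (fun q => (hb' q).symm)
  subst hbe
  have ha'i : Function.Injective a' := by
    intro i j hij
    apply ha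
    change algebraMap k M (a' i) = algebraMap k M (a' j)
    rw [hij]
  have hb'i : Function.Injective b' := by
    intro i j hij
    apply hb
    change algebraMap k M (b' i) = algebraMap k M (b' j)
    rw [hij]
  obtain ⟨F, hF0, hF⟩ := hJ a' b' hN₁ hN₂ ha'i hb'i (gp_descend b' hGP)
  have hne : ∀ (l : Fin 2) (κ : k), (![x, z] : Fin 2 → M) l ≠ algebraMap k M κ := by
    intro l κ h0
    have h1 := aeval_ne x z hind (X l - C κ) (by
      intro h1
      have h2 := congrArg (coeff (Finsupp.single l 1)) h1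
      have h3 : ¬ (0 : Fin 2 →₀ ℕ) = Finsupp.single l 1 := by
        intro h3
        have h4 := congrArg (fun f => f l) h3
        simp at h4
      rw [coeff_sub, coeff_X, if_pos rfl, coeff_C, if_neg h3, coeff_zero, sub_zero] at h2
      exact one_ne_zero h2)
    apply h1
    rw [map_sub, aeval_X, aeval_C, h0, sub_self]
  obtain ⟨g1, g2⟩ := pair_good (F₀ := F₀) hgt rig (hN₀.trans hN₁) (hN₀.trans hN₂) x z a' b' α β e
    c y ha'i hb'i F hF (aeval_ne x z hind F hF0) (fun r => hG _ (hc r)) hR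
    (fun i => hne 0 (a' i)) (fun j => hne 1 (b' j))
  refine good_of_isAlgebraic (S := (G : Set M) ∪ {x, z}) ?_ (halg w hw)
  rintro y (hy | rfl | rfl)
  · exact hG y hy
  · exact g1
  · exact g2

end Pool.Agent.PPX.H6
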