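import Mathlib
import Pool.Agent.Helper6_PPX.Goo
import Pool.Agent.Helper11_PGL.StepG
import Pool.Agent.Helper13_PGL.Drat
import Pool.Agent.Helper40_PGL.GAlg

/-! # Squad PPX: pair steps preserve good elements of the second kind -/

set_option autoImplicit false

universe u

namespace Pool.Agent.PPX

open MvPolynomial PGH PGL

/-- GOO2: pair steps preserve good elements of the second kind -/
def Goo2Stmt : Prop :=
  ∃ N₀ : ℕ, ∀ {k M : Type u} [Field k] [Field M] [Algebra k M] [IsAlgClosed k]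
    [CharZero k] (F₀ : Set M) (F F' : Subfield M),
    PairStep N₀ (algebraMap k M).fieldRange F F' → (∀ w ∈ F, GoodEl2 k F₀ w) →
    ∀ w ∈ F', GoodEl2 k F₀ w

namespace H6

open PRS.H64

section Good

variable {k M : Type u} [Field k] [Field M] [Algebra k M] [IsAlgClosed k] [CharZero k]

open Classical in
/-- the coordinates of a pair step are good elements of the second kind -/
theorem pair_good2 (hgt : HgtStmt.{u}) (hD : DRatStmt.{u}) {F₀ : Set M} {N₁ N₂ R : ℕ}
    (hN₁ : 20 ≤ N₁) (hN₂ : 20 ≤ N₂) (x z : M) (a : Fin N₁ → k) (b : Fin N₂ → k)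
    (α : Fin R → Fin N₁ → ℤ) (β : Fin R → Fin N₂ → ℤ) (e : Fin R → ℕ) (c y : Fin R → M)
    (ha : Function.Injective a) (hb : Function.Injective b)
    (F : MvPolynomial (Fin 2) k) (hF : Exc a b F) (hF0 : aeval ![x, z] F ≠ 0)
    (hc : ∀ r, GoodEl2 k F₀ (c r))
    (hR : Rels x z (fun i => algebraMap k M (a i)) (fun j => algebraMap k M (b j)) α β e c y)
    (hxa : ∀ i, x ≠ algebraMap k M (a i)) (hzb : ∀ j, z ≠ algebraMap k M (b j)) :
    GoodEl2 k F₀ x ∧ GoodEl2 k F₀ z := by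
  choose Tb hTb hbT hbB hbR using hc
  set T0 : Set M := (⋃ r, Tb r) ∪ ({x, z} ∪
    Set.range (fun i => (x - algebraMap k M (a i))⁻¹) ∪
    Set.range (fun j => (z - algebraMap k M (b j))⁻¹) ∪ Set.range y ∪
    Set.range (fun r => (c r)⁻¹) ∪ {(aeval ![x, z] F)⁻¹}) with hT0
  have hT0f : T0.Finite := by
    apply Set.Finite.union
    · exact Set.finite_iUnion (fun i => hTb i)
    · exact (((((Set.toFinite _).union (Set.finite_range _)).union
        (Set.finite_range _)).union (Set.finite_range _)).union (Set.finite_range _)).union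
        (Set.finite_singleton _)
  have hsub : ∀ i, Tb i ⊆ T0 := fun i => (Set.subset_iUnion Tb i).trans Set.subset_union_left
  have hxT : x ∈ T0 := Or.inr (Or.inl (Or.inl (Or.inl (Or.inl (Or.inl (Or.inl rfl))))))
  have hzT : z ∈ T0 := Or.inr (Or.inl (Or.inl (Or.inl (Or.inl (Or.inl (Or.inr rfl))))))
  have hxiT : ∀ i, (x - algebraMap k M (a i))⁻¹ ∈ T0 := fun i =>
    Or.inr (Or.inl (Or.inl (Or.inl (Or.inl (Or.inr ⟨i, rfl⟩)))))
  have hziT : ∀ j, (z - algebraMap k M (b j))⁻¹ ∈ T0 := fun j =>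
    Or.inr (Or.inl (Or.inl (Or.inl (Or.inr ⟨j, rfl⟩))))
  have hyT : ∀ r, y r ∈ T0 := fun r => Or.inr (Or.inl (Or.inl (Or.inr ⟨r, rfl⟩)))
  have hciT : ∀ r, (c r)⁻¹ ∈ T0 := fun r => Or.inr (Or.inl (Or.inr ⟨r, rfl⟩))
  have hFT : (aeval ![x, z] F)⁻¹ ∈ T0 := Or.inr (Or.inr rfl)
  -- the height inequality for every derivation
  have key : ∀ (E : Type u) [Field E] [Algebra k E] [FF k E] (D : Derivation ℤ E E)
      (cp : Place k E → ℕ) (sc : Finset (Place k E)),
      (∀ c : k, D (algebraMap k E c) = 0) → (∀ w : E, D w = 0 → ∃ c : k, algebraMap k E c = w) →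
      Bp D cp sc → ∀ (Q : Subalgebra k M), T0 ⊆ (Q : Set M) → ∀ φ : Q →ₐ[k] E,
      ht k (ev φ x) + ht k (ev φ z) ≤
        10 * (∑ P ∈ sc, cp P) + 10 * ∑ r, 2 * ht k (ev φ (c r)) := by
    intro E _ _ _ D cp sc hDk hDc hB Q hTQ φ
    have hch : CharZero E := charZero_of_injective_algebraMap (algebraMap k E).injective
    have hxQ : x ∈ Q := hTQ hxT
    have hzQ : z ∈ Q := hTQ hzT
    refine hgt D (fun w => ⟨fun h => hDc w h, fun ⟨c, hc⟩ => by rw [← hc]; exact hDk c⟩) cp sc hB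
      (ev φ x) (ev φ z) a b α β e (fun r => ev φ (c r)) (fun r => ev φ (y r)) F hN₁ hN₂ ha hb
      ?_ ?_ (rels_ev φ x z a b α β e c y hR hxQ hzQ (fun i => hTQ (hxiT i))
        (fun i => hTQ (hziT i)) (fun r => hTQ (hsub r (hbT r))) (fun r => hTQ (hciT r))
        (fun r => hTQ (hyT r))) hF ?_
    · intro i h0
      have h1 : x - algebraMap k M (a i) ∈ Q := sub_mem hxQ (Q.algebraMap_mem _)
      have h2 := ev_ne_zero φ h1 (hTQ (hxiT i)) (sub_ne_zero.2 (hxa i))
      rw [ev_sub_const φ hxQ, h0, sub_self] at h2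
      exact h2 rfl
    · intro j h0
      have h1 : z - algebraMap k M (b j) ∈ Q := sub_mem hzQ (Q.algebraMap_mem _)
      have h2 := ev_ne_zero φ h1 (hTQ (hziT j)) (sub_ne_zero.2 (hzb j))
      rw [ev_sub_const φ hzQ, h0, sub_self] at h2
      exact h2 rfl
    · have hyQ : ∀ i, (![x, z] : Fin 2 → M) i ∈ Q := by
        intro i
        fin_cases i
        · exact hxQ
        · exact hzQ
      obtain ⟨h2, h3⟩ := ev_aeval' φ ![x, z] hyQ F
      have h4 := ev_ne_zero φ h2 (hTQ hFT) hF0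
      rw [h3] at h4
      have h5 : (fun i => ev φ ((![x, z] : Fin 2 → M) i)) = ![ev φ x, ev φ z] := by
        funext i
        fin_cases i
        · rfl
        · rfl
      rwa [h5] at h4
  -- bounded heights
  have hbdd : ∀ (E : Type u) [Field E] [Algebra k E] [FF k E] (ψ : M → E), ∃ B : ℕ,
      ∀ (Q : Subalgebra k M), T0 ⊆ (Q : Set M) → ∀ φ : Q →ₐ[k] E,
        (∀ t ∈ T0, t ∈ F₀ → ev φ t = ψ t) → ht k (ev φ x) + ht k (ev φ z) ≤ B := by
    intro E _ _ _ ψ
    have hch : CharZero E := charZero_of_injective_algebraMap (algebraMap k E).injective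
    obtain ⟨t, htr⟩ := FF.exists_transcendental (L := k) (E := E)
    obtain ⟨δ, hδ⟩ := exists_deriv k E htr
    let D : Derivation ℤ E E := δ.restrictScalars ℤ
    have hDk : ∀ c : k, D (algebraMap k E c) = 0 := fun c => δ.map_algebraMap c
    have hPL : PresL k D := fun c => ⟨0, by rw [hDk, map_zero]⟩
    have hDt : D t ≠ 0 := by
      change δ t ≠ 0
      rw [hδ]; exact one_ne_zero
    have hconst : ∀ w, D w = 0 → ∃ c : k, algebraMap k E c = w := by
      intro w hw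
      apply not_transcendental
      intro hwt
      have hal := FF.isAlgebraic hwt
      exact hDt (deriv_zero_of_isAlgebraic_adjoin (AlgHom.id k E) D hDk hw (hal.isAlgebraic t))
    obtain ⟨cp, sc, hsc, hcp⟩ := bounded_poles (L := k) D hPL
    choose Bd hBd using fun i => hbB i E ψ
    refine ⟨10 * ∑ P ∈ sc, cp P + 10 * ∑ r, 2 * Bd r, fun Q hTQ φ hψ => ?_⟩
    refine (key E D cp sc hDk hconst ⟨hsc, hcp⟩ Q hTQ φ).trans ?_
    have h5 : ∀ r, ht k (ev φ (c r)) ≤ Bd r := fun r =>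
      hBd r Q ((hsub r).trans hTQ) φ (fun t ht => hψ t (hsub r ht))
    have h6 : ∑ r, 2 * ht k (ev φ (c r)) ≤ ∑ r, 2 * Bd r :=
      Finset.sum_le_sum (fun r _ => Nat.mul_le_mul_left 2 (h5 r))
    omega
  -- no rational curves
  have hnr : ∀ (E : Type u) [Field E] [Algebra k E] (z' : E), Transcendental k z' →
      IntermediateField.adjoin k {z'} = ⊤ → ∀ (Q : Subalgebra k M), T0 ⊆ (Q : Set M) →
      ∀ φ : Q →ₐ[k] E, (∀ t ∈ T0, t ∈ F₀ → ∃ c : k, ev φ t = algebraMap k E c) →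
      (∃ c : k, ev φ x = algebraMap k E c) ∧ ∃ c : k, ev φ z = algebraMap k E c := by
    intro E _ _ z' hz' htop Q hTQ φ hF'
    obtain ⟨hFF', D, hDk, hDc, hDg⟩ := hD k E z' hz' htop
    have h1 := key E D (fun _ => 0) ∅ hDk hDc ⟨fun _ _ => rfl, fun v => by simpa using hDg v⟩ Q
      hTQ φ
    have h2 : ∀ i, ht k (ev φ (c i)) = 0 := by
      intro i
      obtain ⟨c, hc⟩ := hbR i E z' hz' htop Q ((hsub i).trans hTQ) φ
        (fun t ht ht0 => hF' t (hsub i ht) ht0)
      rw [hc, ht_const]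
    simp only [h2, mul_zero, Finset.sum_const_zero, add_zero] at h1
    obtain ⟨c1, hc1⟩ := ht_eq_zero_iff (k := k) (w := ev φ x) (by omega)
    obtain ⟨c2, hc2⟩ := ht_eq_zero_iff (k := k) (w := ev φ z) (by omega)
    exact ⟨⟨c1, hc1⟩, ⟨c2, hc2⟩⟩
  refine ⟨⟨T0, hT0f, hxT, ?_, ?_⟩, ⟨T0, hT0f, hzT, ?_, ?_⟩⟩
  · intro E _ _ _ ψ
    obtain ⟨B, hB⟩ := hbdd E ψ
    exact ⟨B, fun Q hTQ φ hψ => (Nat.le_add_right _ _).trans (hB Q hTQ φ hψ)⟩
  · intro E _ _ z' hz' htop Q hTQ φ hF'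
    exact (hnr E z' hz' htop Q hTQ φ hF').1
  · intro E _ _ _ ψ
    obtain ⟨B, hB⟩ := hbdd E ψ
    exact ⟨B, fun Q hTQ φ hψ => (Nat.le_add_left _ _).trans (hB Q hTQ φ hψ)⟩
  · intro E _ _ z' hz' htop Q hTQ φ hF'
    exact (hnr E z' hz' htop Q hTQ φ hF').2

end Good

/-- GOO2 -/
theorem goo2 (htx : HtxStmt.{u}) (hgt : HgtStmt.{u}) : Goo2Stmt.{u} := by
  classical
  obtain ⟨N₀, hN₀, hJ⟩ := htx
  refine ⟨N₀, ?_⟩
  intro k M _ _ _ _ _ F₀ G G' hstep hG w hw
  obtain ⟨N₁, N₂, R, x, z, a, b, α, β, e, c, y, hN₁, hN₂, haK, hbK, ha, hb, hGP, hc, hR, hind,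
    halg⟩ := hstep.step
  choose a' ha' using haK
  have hae : a = fun q => algebraMap k M (a' q) := funext (fun q => (ha' q).symm)
  subst hae
  choose b' hb' using hbK
  have hbe : b = fun q => algebraMap k M (b' q) := funext (fun q => (hb' q).symm)
  subst hbe
  have ha'i : Function.Injective a' := by
    intro i j hij
    apply ha
    change algebraMap k M (a' i) = algebraMap k M (a' j)
    rw [hij]
  have hb'i : Function.Injective b' := by
    intro i j hij
    apply hb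
    change algebraMap k M (b' i) = algebraMap k M (b' j)
    rw [hij]
  obtain ⟨F, hF0, hF⟩ := hJ a' b' hN₁ hN₂ ha'i hb'i (gp_descend b' hGP)
  have hne : ∀ (l : Fin 2) (κ : k), (![x, z] : Fin 2 → M) l ≠ algebraMap k M κ := by
    intro l κ h0
    have h1 := aeval_ne x z hind (X l - C κ) (by
      intro h1
      have h2 := congrArg (coeff (Finsupp.single l 1)) h1
      have h3 : ¬ (0 : Fin 2 →₀ ℕ) = Finsupp.single l 1 := by
        intro h3
        have h4 := congrArg (fun f => f l) h3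
        simp at h4
      rw [coeff_sub, coeff_X, if_pos rfl, coeff_C, if_neg h3, coeff_zero, sub_zero] at h2
      exact one_ne_zero h2)
    apply h1
    rw [map_sub, aeval_X, aeval_C, h0, sub_self]
  obtain ⟨g1, g2⟩ := pair_good2 (F₀ := F₀) hgt PGL.H13.dRat (hN₀.trans hN₁) (hN₀.trans hN₂) x z
    a' b' α β e c y ha'i hb'i F hF (aeval_ne x z hind F hF0) (fun r => hG _ (hc r)) hR
    (fun i => hne 0 (a' i)) (fun j => hne 1 (b' j))
  refine (PGL.gAlg k M F₀).2.2 ((G : Set M) ∪ {x, z}) ?_ w (halg w hw)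
  rintro y (hy | rfl | rfl)
  · exact hG y hy
  · exact g1
  · exact g2

end H6

end Pool.Agent.PPX
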