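import Mathlib
import Pool.Agent.Helper3_PPX.Geo
import Pool.Agent.Helper47_PRS.Hgt
import Pool.Agent.Helper41_PRS.RAM

/-! # Squad PPX: module HGT -/

set_option autoImplicit false

universe u

namespace Pool.Agent.PPX.H6

open MvPolynomial PGH PRS.H47H

section

variable {k E : Type u} [Field k] [Field E] [Algebra k E] [IsAlgClosed k] [CharZero k] [FF k E]

/-- the number of places where some `c r` is not a unit -/
theorem card_bad {R : ℕ} (c : Fin R → E) (s : Finset (Place k E))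
    (h : ∀ P ∈ s, ∃ r, P.ord (c r) ≠ 0) : (s.card : ℤ) ≤ ∑ r, 2 * (ht k (c r) : ℤ) := by
  classical
  obtain ⟨s1, hs1⟩ := exists_big (L := k) c
  have hss : s ⊆ s1 := by
    intro P hP
    by_contra h1
    obtain ⟨r, hr⟩ := h P hP
    exact hr (hs1 r P h1)
  have hnn : ∀ (P : Place k E) (r : Fin R),
      0 ≤ max 0 (P.ord (c r)) + max 0 (-P.ord (c r)) := fun P r => by positivity
  have h2 : (s.card : ℤ) ≤ ∑ P ∈ s, ∑ r, (max 0 (P.ord (c r)) + max 0 (-P.ord (c r))) := by
    have h3 : (s.card : ℤ) = ∑ P ∈ s, (1 : ℤ) := by simp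
    rw [h3]
    refine Finset.sum_le_sum fun P hP => ?_
    obtain ⟨r, hr⟩ := h P hP
    have hle : max 0 (P.ord (c r)) + max 0 (-P.ord (c r)) ≤
        ∑ r, (max 0 (P.ord (c r)) + max 0 (-P.ord (c r))) :=
      Finset.single_le_sum (f := fun r => max 0 (P.ord (c r)) + max 0 (-P.ord (c r)))
        (fun r _ => hnn P r) (Finset.mem_univ r)
    have h1 : 1 ≤ max 0 (P.ord (c r)) + max 0 (-P.ord (c r)) := by omega
    linarith
  refine h2.trans ((Finset.sum_le_sum_of_subset_of_nonneg hss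
    (fun P _ _ => Finset.sum_nonneg fun r _ => hnn P r)).trans (le_of_eq ?_))
  rw [Finset.sum_comm]
  refine Finset.sum_congr rfl fun r _ => ?_
  rw [Finset.sum_add_distrib, sum_zeros_eq _ s1 (hs1 r), sum_poles_eq _ s1 (hs1 r)]
  ring

/-- the degenerate case -/
theorem one_side (D : Derivation ℤ E E) (cp : Place k E → ℕ) (sc : Finset (Place k E))
    (hB : Bp D cp sc) {N R : ℕ} (z : E) (b : Fin N → k) (c : Fin R → E) (hN : 20 ≤ N)
    (hb : Function.Injective b) (hz : ∀ j, z ≠ algebraMap k E (b j))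
    (hDb : ∀ j, D (algebraMap k E (b j)) = 0) (hDz : D z ≠ 0)
    (hP : ∀ P : Place k E, (∀ r, P.ord (c r) = 0) → ∀ j, P.ord (z - algebraMap k E (b j)) ≠ 1) :
    (ht k z : ℤ) ≤ ∑ P ∈ sc, (cp P : ℤ) + ∑ r, 2 * (ht k (c r) : ℤ) := by
  classical
  obtain ⟨s, hs⟩ := exists_big (L := k) (fun j => z - algebraMap k E (b j))
  have hram := PRS.H41.ram D cp sc hB.cp0 hB.dge N b z hb hDb hDz ∅
    (fun P hP => absurd hP (Set.notMem_empty P)) s
  simp only [Set.mem_empty_iff_false, if_false] at hram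
  have h1 := cnt N z b hb hz s hs (fun P => ∃ j, P.ord (z - algebraMap k E (b j)) = 1)
    (fun P h => h) _ hram
  have h2 := card_bad c (s.filter (fun P => ∃ j, P.ord (z - algebraMap k E (b j)) = 1)) (by
    intro P hP1
    rw [Finset.mem_filter] at hP1
    by_contra hcon
    push Not at hcon
    obtain ⟨j, hj⟩ := hP1.2
    exact hP P hcon j hj)
  have h3 : (20 : ℤ) * ht k z ≤ N * ht k z :=
    mul_le_mul_of_nonneg_right (by exact_mod_cast hN) (by positivity)
  have h4 : 0 ≤ ∑ P ∈ sc, (cp P : ℤ) := Finset.sum_nonneg fun P _ => by positivity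
  have h5 : 0 ≤ ∑ r, 2 * (ht k (c r) : ℤ) := Finset.sum_nonneg fun P _ => by positivity
  have h6 : (0 : ℤ) ≤ ht k z := by positivity
  linarith

end

/-- HGT -/
theorem hgt (hp : Pa2Stmt.{u}) : HgtStmt.{u} := by
  classical
  intro k E _ _ _ _ _ _ _ D hD cp sc hB N₁ N₂ R x z a b α β e c y F hN₁ hN₂ ha hb hx hz hR hF hF0
  have hDk : ∀ κ : k, D (algebraMap k E κ) = 0 := fun κ => (hD _).2 ⟨κ, rfl⟩
  have hPa : ∀ P : Place k E, (∀ r, P.ord (c r) = 0) →
      (∀ i, P.ord (x - algebraMap k E (a i)) = 1 → P.Ge 0 z →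
        ∃ j, P.Ge 1 (z - algebraMap k E (b j))) ∧
      (∀ j, P.ord (z - algebraMap k E (b j)) = 1 → P.Ge 0 x →
        ∃ i, P.Ge 1 (x - algebraMap k E (a i))) := fun P hc =>
    hp P x z a b α β e c y ha hb hx hz hR hc
  have hC0 : 0 ≤ ∑ P ∈ sc, (cp P : ℤ) := Finset.sum_nonneg fun P _ => by positivity
  have hB0 : 0 ≤ ∑ r, 2 * (ht k (c r) : ℤ) := Finset.sum_nonneg fun P _ => by positivity
  suffices hmain : (ht k x : ℤ) + ht k z ≤
      10 * ∑ P ∈ sc, (cp P : ℤ) + 10 * ∑ r, 2 * (ht k (c r) : ℤ) by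
    exact_mod_cast hmain
  by_cases hDx : D x = 0
  · obtain ⟨κ, hκ⟩ := (hD x).1 hDx
    have hx0 : ht k x = 0 := by rw [← hκ, ht_const]
    by_cases hDz : D z = 0
    · obtain ⟨κ', hκ'⟩ := (hD z).1 hDz
      have hz0 : ht k z = 0 := by rw [← hκ', ht_const]
      rw [hx0, hz0, Nat.cast_zero]
      linarith
    · have h1 := one_side D cp sc hB z b c hN₂ hb hz (fun j => hDk _) hDz (by
        intro P hc j hj
        obtain ⟨i, hi⟩ := (hPa P hc).2 j hj (by rw [← hκ]; exact P.ge_const κ)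
        rw [← hκ, ← map_sub] at hi
        refine P.not_ge_one_const (sub_ne_zero.2 ?_) hi
        intro h7
        apply hx i
        rw [← hκ, h7])
      rw [hx0, Nat.cast_zero]
      linarith
  · by_cases hDz : D z = 0
    · obtain ⟨κ, hκ⟩ := (hD z).1 hDz
      have hz0 : ht k z = 0 := by rw [← hκ, ht_const]
      have h1 := one_side D cp sc hB x a c hN₁ ha hx (fun j => hDk _) hDx (by
        intro P hc i hi
        obtain ⟨j, hj⟩ := (hPa P hc).1 i hi (by rw [← hκ]; exact P.ge_const κ)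
        rw [← hκ, ← map_sub] at hj
        refine P.not_ge_one_const (sub_ne_zero.2 ?_) hj
        intro h7
        apply hz j
        rw [← hκ, h7])
      rw [hz0, Nat.cast_zero]
      linarith
    · obtain ⟨s, hs⟩ := exists_big (L := k) c
      set bd := s.filter (fun P => ∃ r, P.ord (c r) ≠ 0) with hbd
      have hbd0 : ∀ P ∉ bd, ∀ r, P.ord (c r) = 0 := by
        intro P hP r
        by_contra h0
        apply hP
        rw [hbd, Finset.mem_filter]
        refine ⟨?_, r, h0⟩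
        by_contra h1
        exact h0 (hs r P h1)
      have hcard := card_bad c bd (fun P hP => (Finset.mem_filter.1 hP).2)
      have h1 := hF (L := k) D cp sc bd hB hDk x z hDx hDz
        ⟨fun P hP _ => (hPa P (hbd0 P hP)).1, fun P hP _ => (hPa P (hbd0 P hP)).2⟩ hF0
      have h2 : (ht k x : ℤ) + ht k z ≤ ∑ P ∈ sc, (cp P : ℤ) + bd.card := by exact_mod_cast h1
      linarith

end Pool.Agent.PPX.H6
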