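import Mathlib
import Pool.Agent.Helper3_PPX.Geo

/-! # Squad PPX: module PA2 -/

set_option autoImplicit false

universe u

namespace Pool.Agent.PPX.H6

open PGH

section

variable {L E : Type*} [Field L] [Field E] [Algebra L E] (P : Place L E)

theorem ord_prod {ι : Type*} (s : Finset ι) (f : ι → E) (h : ∀ i ∈ s, f i ≠ 0) :
    P.ord (∏ i ∈ s, f i) = ∑ i ∈ s, P.ord (f i) := by
  classical
  induction s using Finset.induction_on with
  | empty => simp
  | insert a s ha ih =>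
    rw [Finset.prod_insert ha, Finset.sum_insert ha,
      P.ord_mul (h a (Finset.mem_insert_self _ _))
        (Finset.prod_ne_zero_iff.2 (fun i hi => h i (Finset.mem_insert_of_mem hi))),
      ih (fun i hi => h i (Finset.mem_insert_of_mem hi))]

theorem ord_eq_zero {y : E} (hy : y ≠ 0) (h0 : P.Ge 0 y) (h1 : ¬ P.Ge 1 y) : P.ord y = 0 := by
  rw [P.ge_iff hy] at h0 h1
  omega

/-- the orders of the other factors -/
theorem ord_other {N : ℕ} (x : E) (a : Fin N → L) (ha : Function.Injective a)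
    (hx : ∀ i, x ≠ algebraMap L E (a i)) (i : Fin N)
    (hi : P.ord (x - algebraMap L E (a i)) = 1) (l : Fin N) (hl : l ≠ i) :
    P.ord (x - algebraMap L E (a l)) = 0 := by
  have hG1 : P.Ge 1 (x - algebraMap L E (a i)) := (P.ge_iff (sub_ne_zero.2 (hx i))).2 hi.ge
  have hxl : x - algebraMap L E (a l) =
      (x - algebraMap L E (a i)) + algebraMap L E (a i - a l) := by
    rw [map_sub]; ring
  apply ord_eq_zero P (sub_ne_zero.2 (hx l))
  · rw [hxl]
    exact (hG1.mono (by norm_num)).add (P.ge_const _)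
  · intro h1
    have h2 := h1.sub hG1
    rw [hxl, add_sub_cancel_left] at h2
    refine P.not_ge_one_const (sub_ne_zero.2 ?_) h2
    intro h3
    exact hl (ha h3).symm

/-- the order of a relation -/
theorem dvd_of_rel {N₁ N₂ : ℕ} (u : Fin N₁ → E) (w : Fin N₂ → E) (hu : ∀ i, u i ≠ 0)
    (hw : ∀ j, w j ≠ 0) (i : Fin N₁) (hi : P.ord (u i) = 1) (hl : ∀ l, l ≠ i → P.ord (u l) = 0)
    (hj : ∀ j, P.ord (w j) = 0) (α : Fin N₁ → ℤ) (β : Fin N₂ → ℤ) (e : ℕ) (c y : E)
    (hc : c ≠ 0) (hc0 : P.ord c = 0)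
    (h : (∏ i, u i ^ α i) * (∏ j, w j ^ β j) = c * y ^ e) : (e : ℤ) ∣ α i := by
  have hu0 : (∏ i, u i ^ α i) ≠ 0 := Finset.prod_ne_zero_iff.2 (fun q _ => zpow_ne_zero _ (hu q))
  have hw0 : (∏ j, w j ^ β j) ≠ 0 := Finset.prod_ne_zero_iff.2 (fun q _ => zpow_ne_zero _ (hw q))
  have hy : y ^ e ≠ 0 := by
    intro h0
    rw [h0, mul_zero] at h
    exact mul_ne_zero hu0 hw0 h
  have h1 := congrArg P.ord h
  rw [P.ord_mul hu0 hw0, P.ord_mul hc hy, hc0, zero_add, P.ord_pow,
    ord_prod P _ _ (fun q _ => zpow_ne_zero _ (hu q)),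
    ord_prod P _ _ (fun q _ => zpow_ne_zero _ (hw q)),
    Finset.sum_eq_single i (fun l _ hli => by rw [P.ord_zpow, hl l hli, mul_zero])
      (fun h => absurd (Finset.mem_univ _) h),
    Finset.sum_eq_zero (fun j _ => by rw [P.ord_zpow, hj, mul_zero]), P.ord_zpow, hi,
    mul_one, add_zero] at h1
  exact ⟨_, h1⟩

end

/-- PA2 -/
theorem pa2 : Pa2Stmt.{u} := by
  intro L E _ _ _ P N₁ N₂ R x z a b α β e c y ha hb hx hz hR hc
  refine ⟨fun i hi h0 => ?_, fun j hj h0 => ?_⟩
  · by_contra hcon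
    push Not at hcon
    obtain ⟨r, hr⟩ := hR.left i
    exact hr (dvd_of_rel P (fun i => x - algebraMap L E (a i)) (fun j => z - algebraMap L E (b j))
      (fun i => sub_ne_zero.2 (hx i)) (fun j => sub_ne_zero.2 (hz j)) i hi
      (fun l hl => ord_other P x a ha hx i hi l hl)
      (fun j => ord_eq_zero P (sub_ne_zero.2 (hz j)) (h0.sub (P.ge_const _)) (hcon j))
      (α r) (β r) (e r) (c r) (y r) (hR.ne r) (hc r) (hR.rel r))
  · by_contra hcon
    push Not at hcon
    obtain ⟨r, hr⟩ := hR.right j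
    have h1 := hR.rel r
    rw [mul_comm] at h1
    exact hr (dvd_of_rel P (fun j => z - algebraMap L E (b j)) (fun i => x - algebraMap L E (a i))
      (fun j => sub_ne_zero.2 (hz j)) (fun i => sub_ne_zero.2 (hx i)) j hj
      (fun l hl => ord_other P z b hb hz j hj l hl)
      (fun i => ord_eq_zero P (sub_ne_zero.2 (hx i)) (h0.sub (P.ge_const _)) (hcon i))
      (β r) (α r) (e r) (c r) (y r) (hR.ne r) (hc r) h1)

end Pool.Agent.PPX.H6
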